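import Pool.Agent.W743.HP.Stm

/-!
Project HP (helper743), part HP-EIG: the functions `(im (g • cay (f z))) ^ s` are eigenfunctions.
-/

set_option autoImplicit false

open Set Filter Topology MeasureTheory Complex

namespace Pool.Agent.W752.HP

open Pool.Agent.W743.HP

/-- The denominator. -/
noncomputable def DD (g : Matrix.SpecialLinearGroup (Fin 2) ℝ) (w : ℂ) : ℂ :=
  (g 1 0 : ℂ) * (I * (1 + w)) + (g 1 1 : ℂ) * (1 - w)

/-- The numerator. -/
noncomputable def NU (g : Matrix.SpecialLinearGroup (Fin 2) ℝ) (w : ℂ) : ℂ :=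
  (g 0 0 : ℂ) * (I * (1 + w)) + (g 0 1 : ℂ) * (1 - w)

theorem det_g (g : Matrix.SpecialLinearGroup (Fin 2) ℝ) : g 0 0 * g 1 1 - g 0 1 * g 1 0 = 1 := by
  have h := g.2
  rw [Matrix.det_fin_two] at h
  exact h

theorem norm_sq_eq (w : ℂ) : ‖w‖ ^ 2 = w.re ^ 2 + w.im ^ 2 := by
  rw [← Complex.normSq_eq_norm_sq, Complex.normSq_apply]
  ring

theorem cay_im_eq (w : ℂ) (hw : w ≠ 1) :
    (I * (1 + w) / (1 - w)).im = (1 - ‖w‖ ^ 2) / ‖1 - w‖ ^ 2 := by
  have h1 : (1 - w) ≠ 0 := sub_ne_zero.2 (Ne.symm hw)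
  have h2 : ‖1 - w‖ ^ 2 ≠ 0 := by positivity
  rw [Complex.div_im, Complex.normSq_eq_norm_sq]
  field_simp
  rw [norm_sq_eq w]
  simp
  ring

theorem num_mul_conj (g : Matrix.SpecialLinearGroup (Fin 2) ℝ) (w : ℂ) :
    (NU g w).im * (DD g w).re - (NU g w).re * (DD g w).im = 1 - ‖w‖ ^ 2 := by
  have h := det_g g
  rw [norm_sq_eq]
  simp only [NU, DD, Complex.add_im, Complex.add_re, Complex.mul_im, Complex.mul_re,
    Complex.ofReal_re, Complex.ofReal_im, Complex.I_re, Complex.I_im, Complex.one_re,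
    Complex.one_im, Complex.sub_re, Complex.sub_im]
  linear_combination (1 - w.re ^ 2 - w.im ^ 2) * h

theorem DD_ne (g : Matrix.SpecialLinearGroup (Fin 2) ℝ) (w : ℂ) (hw : ‖w‖ < 1) : DD g w ≠ 0 := by
  intro h
  have h1 := num_mul_conj g w
  rw [h] at h1
  simp only [Complex.zero_re, Complex.zero_im, mul_zero, sub_zero] at h1
  have h2 : ‖w‖ ^ 2 < 1 := by
    have := norm_nonneg w
    nlinarith
  linarith

theorem im_TT (g : Matrix.SpecialLinearGroup (Fin 2) ℝ) (w : ℂ) :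
    (NU g w / DD g w).im = (1 - ‖w‖ ^ 2) / ‖DD g w‖ ^ 2 := by
  rw [← num_mul_conj g w, Complex.div_im, Complex.normSq_eq_norm_sq]
  ring

theorem ne_one_of {w : ℂ} (hw : ‖w‖ < 1) : w ≠ 1 := by
  rintro rfl
  simp at hw

theorem coe_cay (w : ℂ) (hw : ‖w‖ < 1) : ((cay w : UpperHalfPlane) : ℂ) = I * (1 + w) / (1 - w) := by
  have h1 := cay_im_eq w (ne_one_of hw)
  have h2 : 0 < (I * (1 + w) / (1 - w)).im := by
    rw [h1]
    have h3 : ‖w‖ ^ 2 < 1 := by
      have := norm_nonneg w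
      nlinarith
    have h4 : (1 - w) ≠ 0 := sub_ne_zero.2 (Ne.symm (ne_one_of hw))
    have h5 : 0 < ‖1 - w‖ := norm_pos_iff.2 h4
    exact div_pos (by linarith) (by positivity)
  unfold cay
  rw [UpperHalfPlane.ofComplex_apply_of_im_pos h2]

theorem coe_smul_cay (g : Matrix.SpecialLinearGroup (Fin 2) ℝ) (w : ℂ) (hw : ‖w‖ < 1) :
    ((g • cay w : UpperHalfPlane) : ℂ) = NU g w / DD g w := by
  have h4 : (1 - w) ≠ 0 := sub_ne_zero.2 (Ne.symm (ne_one_of hw))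
  have h5 := DD_ne g w hw
  rw [UpperHalfPlane.coe_specialLinearGroup_apply, coe_cay w hw]
  simp only [Algebra.algebraMap_self, RingHom.id_apply]
  have h6 : (g 1 0 : ℂ) * (I * (1 + w) / (1 - w)) + (g 1 1 : ℂ) = DD g w / (1 - w) := by
    unfold DD
    field_simp
  have h7 : (g 0 0 : ℂ) * (I * (1 + w) / (1 - w)) + (g 0 1 : ℂ) = NU g w / (1 - w) := by
    unfold NU
    field_simp
  rw [h6, h7]
  field_simp

theorem im_smul_cay (g : Matrix.SpecialLinearGroup (Fin 2) ℝ) (w : ℂ) (hw : ‖w‖ < 1) :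
    (g • cay w : UpperHalfPlane).im = (1 - ‖w‖ ^ 2) / ‖DD g w‖ ^ 2 := by
  rw [← im_TT, ← coe_smul_cay g w hw]
  rfl

/-- The holomorphic map. -/
noncomputable def TM (g : Matrix.SpecialLinearGroup (Fin 2) ℝ) (f : ℂ → ℂ) (z : ℂ) : ℂ :=
  NU g (f z) / DD g (f z)

theorem hasDerivAt_TM (g : Matrix.SpecialLinearGroup (Fin 2) ℝ) (f : ℂ → ℂ) (z f' : ℂ)
    (hf : HasDerivAt f f' z) (hz : ‖f z‖ < 1) :
    HasDerivAt (TM g f) (2 * I * f' / DD g (f z) ^ 2) z := by
  have h5 := DD_ne g (f z) hz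
  have hN : HasDerivAt (fun z => NU g (f z)) ((g 0 0 : ℂ) * (I * f') + (g 0 1 : ℂ) * (-f')) z := by
    unfold NU
    have h1 : HasDerivAt (fun z => 1 + f z) f' z := hf.const_add 1
    have h2 : HasDerivAt (fun z => 1 - f z) (-f') z := hf.const_sub 1
    exact ((h1.const_mul I).const_mul _).add (h2.const_mul _)
  have hD : HasDerivAt (fun z => DD g (f z)) ((g 1 0 : ℂ) * (I * f') + (g 1 1 : ℂ) * (-f')) z := by
    unfold DD
    have h1 : HasDerivAt (fun z => 1 + f z) f' z := hf.const_add 1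
    have h2 : HasDerivAt (fun z => 1 - f z) (-f') z := hf.const_sub 1
    exact ((h1.const_mul I).const_mul _).add (h2.const_mul _)
  have h := hN.div hD h5
  have hd : ((g 0 0 : ℂ)) * (g 1 1 : ℂ) - (g 0 1 : ℂ) * (g 1 0 : ℂ) = 1 := by
    have := det_g g
    exact_mod_cast this
  refine h.congr_deriv ?_
  congr 1
  unfold NU DD
  linear_combination (2 * I * f') * hd


section general

variable {T : ℂ → ℂ} {U : Set ℂ}

theorem hasFDerivAt_of (z T' : ℂ) (h : HasDerivAt T T' z) :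
    ∃ L : ℂ →L[ℝ] ℂ, HasFDerivAt T L z ∧ ∀ v, L v = T' * v := by
  refine ⟨_, h.hasFDerivAt.restrictScalars ℝ, fun v => ?_⟩
  simp [mul_comm]

theorem hasFDerivAt_im (z T' : ℂ) (h : HasDerivAt T T' z) :
    ∃ L : ℂ →L[ℝ] ℝ, HasFDerivAt (fun w => (T w).im) L z ∧ ∀ v, L v = (T' * v).im := by
  obtain ⟨L, h1, h2⟩ := hasFDerivAt_of z T' h
  refine ⟨Complex.imCLM.comp L, Complex.imCLM.hasFDerivAt.comp z h1, fun v => ?_⟩
  simp [h2]

theorem hasFDerivAt_re (z T' : ℂ) (h : HasDerivAt T T' z) :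
    ∃ L : ℂ →L[ℝ] ℝ, HasFDerivAt (fun w => (T w).re) L z ∧ ∀ v, L v = (T' * v).re := by
  obtain ⟨L, h1, h2⟩ := hasFDerivAt_of z T' h
  refine ⟨Complex.reCLM.comp L, Complex.reCLM.hasFDerivAt.comp z h1, fun v => ?_⟩
  simp [h2]

/-- The function `(im T) ^ s`. -/
noncomputable def WW (T : ℂ → ℂ) (s : ℂ) (z : ℂ) : ℂ := Complex.exp (s * (Real.log (T z).im : ℝ))

theorem WW_eq (s z : ℂ) (h : 0 < (T z).im) : WW T s z = ((T z).im : ℂ) ^ s := by
  unfold WW
  rw [Complex.cpow_def_of_ne_zero (by exact_mod_cast h.ne'), Complex.ofReal_log h.le, mul_comm]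

theorem hasFDerivAt_WW (s z T' : ℂ) (h : HasDerivAt T T' z) (h0 : 0 < (T z).im) :
    ∃ L : ℂ →L[ℝ] ℂ, HasFDerivAt (WW T s) L z ∧
      ∀ v, L v = WW T s z * (s * (((T' * v).im / (T z).im : ℝ) : ℂ)) := by
  obtain ⟨L, h1, h2⟩ := hasFDerivAt_im z T' h
  have h3 := h1.log h0.ne'
  have h4 := (Complex.ofRealCLM.hasFDerivAt.comp z h3).const_mul s
  have h5 := h4.cexp
  refine ⟨_, h5, fun v => ?_⟩
  simp only [_root_.smul_apply, ContinuousLinearMap.comp_apply, h2, WW,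
    Function.comp_apply, smul_eq_mul, Complex.ofRealCLM_apply, div_eq_inv_mul]

theorem hasFDerivAt_quot (z : ℂ) (a h : ℂ → ℝ) (La Lh : ℂ →L[ℝ] ℝ) (ha : HasFDerivAt a La z)
    (hh : HasFDerivAt h Lh z) (h0 : h z ≠ 0) :
    ∃ L : ℂ →L[ℝ] ℝ, HasFDerivAt (fun w => a w / h w) L z ∧
      ∀ v, L v = (La v * h z - a z * Lh v) / h z ^ 2 := by
  have h1 := ha.mul ((hasDerivAt_inv h0).comp_hasFDerivAt z hh)
  refine ⟨_, h1.congr_of_eventuallyEq (Eventually.of_forall fun w => ?_), fun v => ?_⟩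
  · simp [div_eq_mul_inv]
  · simp
    field_simp
    ring

theorem lap_WW (hU : IsOpen U) (hT : DifferentiableOn ℂ T U) (him : ∀ z ∈ U, 0 < (T z).im)
    (s z : ℂ) (hz : z ∈ U) :
    lap (WW T s) z = (-(s * (1 - s) * ((‖deriv T z‖ ^ 2 / (T z).im ^ 2 : ℝ) : ℂ))) * WW T s z := by
  have hd : ∀ w ∈ U, HasDerivAt T (deriv T w) w := fun w hw =>
    (hT.differentiableAt (hU.mem_nhds hw)).hasDerivAt
  have hT' : DifferentiableOn ℂ (deriv T) U := hT.deriv hU
  have hd' : HasDerivAt (deriv T) (deriv (deriv T) z) z :=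
    (hT'.differentiableAt (hU.mem_nhds hz)).hasDerivAt
  have hnh : ∀ᶠ w in 𝓝 z, w ∈ U := hU.mem_nhds hz
  have e1 : ∀ v : ℂ, (fun w => fderiv ℝ (WW T s) w v) =ᶠ[𝓝 z]
      fun w => WW T s w * (s * (((deriv T w * v).im / (T w).im : ℝ) : ℂ)) := fun v => by
    filter_upwards [hnh] with w hw
    obtain ⟨L, h1, h2⟩ := hasFDerivAt_WW s w _ (hd w hw) (him w hw)
    rw [h1.fderiv, h2]
  obtain ⟨L, h1, h2⟩ := hasFDerivAt_WW s z _ (hd z hz) (him z hz)
  obtain ⟨Lh, h3, h4⟩ := hasFDerivAt_im z _ (hd z hz)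
  have h0 := (him z hz).ne'
  have key : ∀ v : ℂ, fderiv ℝ (fun w => fderiv ℝ (WW T s) w v) z v =
      WW T s z * (s * (((deriv T z * v).im / (T z).im : ℝ) : ℂ)) *
        (s * (((deriv T z * v).im / (T z).im : ℝ) : ℂ)) +
      WW T s z * (s * ((((deriv (deriv T) z * v * v).im * (T z).im -
        (deriv T z * v).im * (deriv T z * v).im) / (T z).im ^ 2 : ℝ) : ℂ)) := fun v => by
    rw [(e1 v).fderiv_eq]
    obtain ⟨La, h5, h6⟩ := hasFDerivAt_im z _ (hd'.mul_const v)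
    obtain ⟨Lq, h7, h8⟩ := hasFDerivAt_quot z (fun w => (deriv T w * v).im) (fun w => (T w).im)
      La Lh h5 h3 h0
    have h9 := (Complex.ofRealCLM.hasFDerivAt.comp z h7).const_mul s
    have h10 := h1.mul h9
    have h11 := h10.fderiv
    have h12 : (fun w => WW T s w * (s * (((deriv T w * v).im / (T w).im : ℝ) : ℂ))) =
        (WW T s * fun y => s * (Complex.ofRealCLM ∘ fun w => (deriv T w * v).im / (T w).im) y) := by
      ext w
      simp
    rw [h12, h11]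
    simp only [_root_.add_apply, _root_.smul_apply,
      ContinuousLinearMap.comp_apply, smul_eq_mul, Function.comp_apply,
      Complex.ofRealCLM_apply, h2, h4, h6, h8]
    ring
  unfold lap
  rw [key 1, key Complex.I]
  have hn : ‖deriv T z‖ ^ 2 = (deriv T z).re ^ 2 + (deriv T z).im ^ 2 := norm_sq_eq _
  rw [hn]
  have hI : (deriv (deriv T) z * I * I).im = - (deriv (deriv T) z).im := by
    rw [mul_assoc, Complex.I_mul_I]
    simp
  rw [hI]
  have h0' : ((T z).im : ℂ) ≠ 0 := by exact_mod_cast h0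
  simp only [mul_one, Complex.mul_im, Complex.I_re, Complex.I_im, mul_zero, add_zero]
  push_cast
  field_simp
  ring

theorem contDiffOn_WW (hU : IsOpen U) (hT : DifferentiableOn ℂ T U) (him : ∀ z ∈ U, 0 < (T z).im)
    (s : ℂ) : ContDiffOn ℝ 2 (WW T s) U := by
  have h1 : ContDiffOn ℝ 2 T U := (hT.contDiffOn hU).restrict_scalars ℝ
  have h2 : ContDiffOn ℝ 2 (fun z => (T z).im) U := Complex.imCLM.contDiff.comp_contDiffOn h1
  have h3 : ContDiffOn ℝ 2 (fun z => Real.log (T z).im) U := h2.log fun z hz => (him z hz).ne'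
  have h4 : ContDiffOn ℝ 2 (fun z => ((Real.log (T z).im : ℝ) : ℂ)) U :=
    Complex.ofRealCLM.contDiff.comp_contDiffOn h3
  exact (contDiffOn_const.mul h4).cexp

end general

theorem eig : S_EIG := by
  intro f hf hf1 g s
  have hU : IsOpen (Metric.ball (0 : ℂ) 1) := Metric.isOpen_ball
  have hdT : ∀ z ∈ Metric.ball (0 : ℂ) 1,
      HasDerivAt (TM g f) (2 * I * deriv f z / DD g (f z) ^ 2) z := fun z hz =>
    hasDerivAt_TM g f z _ ((hf.differentiableAt (hU.mem_nhds hz)).hasDerivAt) (hf1 z hz)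
  have hT : DifferentiableOn ℂ (TM g f) (Metric.ball (0 : ℂ) 1) := fun z hz =>
    (hdT z hz).differentiableAt.differentiableWithinAt
  have hi : ∀ z ∈ Metric.ball (0 : ℂ) 1, (g • cay (f z) : UpperHalfPlane).im = (TM g f z).im :=
    fun z hz => by
      rw [im_smul_cay g _ (hf1 z hz), TM, im_TT]
  have him : ∀ z ∈ Metric.ball (0 : ℂ) 1, 0 < (TM g f z).im := fun z hz => by
    rw [← hi z hz]
    exact UpperHalfPlane.im_pos _
  have he : ∀ z ∈ Metric.ball (0 : ℂ) 1,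
      ((g • cay (f z)).im : ℂ) ^ s = WW (TM g f) s z := fun z hz => by
    rw [hi z hz, WW_eq s z (him z hz)]
  refine ⟨(contDiffOn_WW hU hT him s).congr he, fun z hz => ?_⟩
  have hev : (fun z => ((g • cay (f z)).im : ℂ) ^ s) =ᶠ[𝓝 z] WW (TM g f) s := by
    filter_upwards [hU.mem_nhds hz] with w hw
    exact he w hw
  have hlap : lap (fun z => ((g • cay (f z)).im : ℂ) ^ s) z = lap (WW (TM g f) s) z := by
    have h1 : ∀ v : ℂ, (fun w => fderiv ℝ (fun z => ((g • cay (f z)).im : ℂ) ^ s) w v) =ᶠ[𝓝 z]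
        fun w => fderiv ℝ (WW (TM g f) s) w v := fun v => by
      filter_upwards [hev.eventuallyEq_nhds] with w hw
      rw [hw.fderiv_eq]
    unfold lap
    rw [(h1 1).fderiv_eq, (h1 Complex.I).fderiv_eq]
  rw [hlap, lap_WW hU hT him s z hz, he z hz]
  congr 1
  have h5 := DD_ne g (f z) (hf1 z hz)
  have h6 : 0 < 1 - ‖f z‖ ^ 2 := by
    have h1 := hf1 z hz
    have h2 := norm_nonneg (f z)
    nlinarith
  have h7 : ‖deriv (TM g f) z‖ ^ 2 / (TM g f z).im ^ 2 = 4 * KK f z := by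
    rw [(hdT z hz).deriv, TM, im_TT, KK]
    have h8 : 0 < ‖DD g (f z)‖ := norm_pos_iff.2 h5
    rw [norm_div, norm_mul, norm_mul, norm_pow, Complex.norm_I]
    simp only [Complex.norm_ofNat, mul_one]
    field_simp
    ring
  rw [h7]
  push_cast
  ring

end Pool.Agent.W752.HP
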